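import Pool.Agent.R363.SD.Main

/-!
# Stark's conjecture for real quadratic fields: reduction to deep moduli

`K` is a real quadratic field with real embeddings `σ₁ ≠ σ₂`, `ι` is an embedding of the algebraic
closure of `K` into the complex numbers which extends `σ₁`, and for every ideal `𝔣` of the ring of
integers `C 𝔣` is the ray class field modulo `𝔣` and the real place `σ₂`, with its Artin map.
(For `𝔣 = 0` this is `K` itself.)

Ray class fields, ray classes, partial zeta functions, differences, deep multiples and the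
conditions on the units are defined in `Pool.Agent.R363.SD.Defs`.
-/

set_option autoImplicit false

open NumberField

namespace Pool.Agent.Results.MP_343f43_nt.DeepModuliPlain

open Pool.Agent.R363.SD

/-- **Reduction to deep moduli.**  Let `𝔪` be a nonzero ideal divisible by all the primes above `2`.
Stark's conjecture for the modulus `𝔪` is `ForZeta {σ₂} 𝔪 𝔪 0 (Stark ι (C 𝔪))`.

It holds if for some `n`, `k` and some nonzero `𝔟`, every set `s` of `n` principal prime ideals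
`𝔮 = (γ)` of prime norm, with `γ ≡ 1` modulo `𝔪` and coprime to `𝔟`, has a multiple `𝔣` of
`4 ^ (n + k) 𝔪 ∏ 𝔮` with the same prime divisors as `𝔪 ∏ 𝔮`, for which there are Stark units
modulo `𝔣` for all `k`-fold differences of `-ζ'(0, A)` along principal ideals `(γ)` with `γ ≡ 1`
modulo `𝔪`.  Conversely Stark's conjecture for all the multiples of `𝔪` implies this condition. -/
theorem result (K : Type) [Field K] [NumberField K] (hK : Module.finrank ℚ K = 2)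
    (σ₁ σ₂ : K →+* ℝ) (hσ : σ₁ ≠ σ₂) (ι : AlgebraicClosure K →+* ℂ)
    (hι : ι.comp (algebraMap K (AlgebraicClosure K)) = Complex.ofRealHom.comp σ₁)
    (C : ∀ 𝔣 : Ideal (𝓞 K), RayClassField {σ₂} 𝔣) (n k : ℕ)
    (𝔪 𝔟 : Ideal (𝓞 K)) (h𝔪 : 𝔪 ≠ ⊥) (h𝔟 : 𝔟 ≠ ⊥)
    (h2 : ∀ 𝔭 : Ideal (𝓞 K), 𝔭.IsPrime → (2 : 𝓞 K) ∈ 𝔭 → 𝔪 ≤ 𝔭) :
    (HoldsDeep {σ₂} (fun 𝔣 => Stark ι (C 𝔣)) n k 𝔪 𝔟 →
      ForZeta {σ₂} 𝔪 𝔪 0 (Stark ι (C 𝔪))) ∧
    ((∀ 𝔣 : Ideal (𝓞 K), 𝔣 ≠ ⊥ → 𝔣 ≤ 𝔪 → ForZeta {σ₂} 𝔣 𝔣 0 (Stark ι (C 𝔣))) →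
      HoldsDeep {σ₂} (fun 𝔣 => Stark ι (C 𝔣)) n k 𝔪 𝔟) := by
  obtain ⟨hR, hall⟩ := quadratic_embeddings hK hσ hι
  exact stark_reduction hR (Set.singleton_nonempty σ₂) hall C n k 𝔪 𝔟 h𝔪 h𝔟 h2

end Pool.Agent.Results.MP_343f43_nt.DeepModuliPlain
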